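import Mathlib

/-!
(Copied from helper30, Pool/Agent/H30/Vino/Divisor.lean.) Divisor bound: for every `k` some constant `C` satisfies `d(n)^k ≤ C n` for all positive `n`.
-/

set_option autoImplicit false

namespace Pool.Agent.H27.L1.H33.Vmv

lemma succ_pow_le (k : ℕ) (hk : 1 ≤ k) (v : ℕ) : (v + 1) ^ k ≤ k ^ k * 2 ^ v := by
  set q := v / k with hq
  have h1 : v + 1 ≤ k * (q + 1) := by
    have := Nat.lt_mul_div_succ v (show 0 < k by omega)
    rw [← hq] at this
    omega
  have h2 : q + 1 ≤ 2 ^ q := Nat.lt_two_pow_self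
  have h3 : v + 1 ≤ k * 2 ^ q := h1.trans (Nat.mul_le_mul_left _ h2)
  calc (v + 1) ^ k ≤ (k * 2 ^ q) ^ k := Nat.pow_le_pow_left h3 k
    _ = k ^ k * 2 ^ (q * k) := by rw [mul_pow, ← pow_mul]
    _ ≤ k ^ k * 2 ^ v := by
        apply Nat.mul_le_mul_left
        apply Nat.pow_le_pow_right (by norm_num)
        rw [hq]; exact Nat.div_mul_le_self v k

theorem card_divisors_pow_le (k : ℕ) :
    ∃ C : ℕ, 0 < C ∧ ∀ n : ℕ, 0 < n → n.divisors.card ^ k ≤ C * n := by
  rcases Nat.eq_zero_or_pos k with rfl | hk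
  · exact ⟨1, one_pos, fun n hn => by simp only [pow_zero, one_mul]; omega⟩
  refine ⟨(k ^ k) ^ (2 ^ k), by positivity, fun n hn => ?_⟩
  have hn0 : n ≠ 0 := hn.ne'
  rw [Nat.card_divisors hn0, ← Finset.prod_pow]
  have key : ∀ p ∈ n.primeFactors, (n.factorization p + 1) ^ k ≤
      (if p < 2 ^ k then k ^ k else 1) * p ^ n.factorization p := by
    intro p hp
    have hp2 : 2 ≤ p := (Nat.prime_of_mem_primeFactors hp).two_le
    split_ifs with h
    · refine (succ_pow_le k hk _).trans (Nat.mul_le_mul_left _ (Nat.pow_le_pow_left hp2 _))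
    · push Not at h
      rw [one_mul]
      calc (n.factorization p + 1) ^ k ≤ (2 ^ n.factorization p) ^ k :=
            Nat.pow_le_pow_left Nat.lt_two_pow_self k
        _ = (2 ^ k) ^ n.factorization p := by rw [← pow_mul, ← pow_mul, mul_comm]
        _ ≤ p ^ n.factorization p := Nat.pow_le_pow_left h _
  refine (Finset.prod_le_prod' key).trans ?_
  rw [Finset.prod_mul_distrib]
  have h1' : ∏ p ∈ n.primeFactors, p ^ n.factorization p = n := Nat.prod_factorization_pow_eq_self hn0
  rw [h1']
  apply Nat.mul_le_mul_right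
  rw [← Finset.prod_filter, Finset.prod_const]
  apply Nat.pow_le_pow_right (by positivity)
  calc (n.primeFactors.filter (fun p => p < 2 ^ k)).card ≤ (Finset.range (2 ^ k)).card := by
        apply Finset.card_le_card
        intro p hp
        simp only [Finset.mem_filter] at hp
        exact Finset.mem_range.2 hp.2
    _ = 2 ^ k := Finset.card_range _

end Pool.Agent.H27.L1.H33.Vmv
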